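import Pool.Agent.H17.LF.Series

/-!
# The rational numbers and exponents of the family

Four positive rational numbers and four nonzero integers; padding by `1 * log 1` gives every number
`n ≥ 4` of terms.
-/

set_option autoImplicit false

open Finset

namespace Pool.Agent.H17.LF

/-- the numbers `u_j` -/
def u : Fin 4 → ℤ := ![8, 5, 3, 7]

/-- The four positive rational numbers at the parameter `t`. -/
def aQ (t : ℤ) (j : Fin 4) : ℚ := ((t + u j : ℤ) : ℚ) / ((t - u j : ℤ) : ℚ)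

/-- The four integer coefficients at the parameter `t`. -/
def b (t : ℤ) : Fin 4 → ℤ :=
  ![1001 * t^2 + (-59584), (-1001) * t^2 + 40425, (-1001) * t^2 + (-1911), 22880]

theorem tsqZ (t : ℤ) (ht : 10^6 ≤ t) : (10:ℤ)^12 ≤ t^2 := by
  calc (10:ℤ)^12 = (10^6)^2 := by norm_num
    _ ≤ t^2 := pow_le_pow_left₀ (by norm_num) ht 2

theorem u_pos (j : Fin 4) : 0 < u j := by fin_cases j <;> simp [u]

theorem u_le (j : Fin 4) : u j ≤ 8 := by fin_cases j <;> simp [u]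

theorem aQ_pos (t : ℤ) (ht : 10^6 ≤ t) (j : Fin 4) : 0 < aQ t j := by
  have h1 := u_pos j
  have h2 := u_le j
  have h3 : (0:ℚ) < ((t + u j : ℤ) : ℚ) := by exact_mod_cast (by linarith : 0 < t + u j)
  have h4 : (0:ℚ) < ((t - u j : ℤ) : ℚ) := by exact_mod_cast (by linarith : 0 < t - u j)
  exact div_pos h3 h4

theorem b_ne (t : ℤ) (ht : 10^6 ≤ t) (j : Fin 4) : b t j ≠ 0 := by
  have h := tsqZ t ht
  fin_cases j <;> simp [b] <;> intro h0 <;> linarith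

theorem sum_eq (t : ℤ) :
    ∑ j, ((b t j : ℤ) : ℝ) * Real.log ((aQ t j : ℚ) : ℝ) = F (t : ℝ) := by
  unfold F
  simp only [Fin.sum_univ_succ, Fin.sum_univ_zero]
  simp [aQ, b, u, Fin.succ]
  ring

/-- the height of `(t + u) / (t - u)` is at most `2 t` -/
theorem height_le (t : ℤ) (ht : 10^6 ≤ t) (j : Fin 4) :
    ((max (aQ t j).num.natAbs (aQ t j).den : ℕ) : ℝ) ≤ 2 * t := by
  have h1 := u_pos j
  have h2 := u_le j
  have hp : 0 < t + u j := by linarith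
  have hq : 0 < t - u j := by linarith
  have hd : ((aQ t j).den : ℤ) ∣ (t - u j) := by
    unfold aQ
    rw [← Rat.divInt_eq_div]
    exact Rat.den_dvd _ _
  have hn : (aQ t j).num ∣ (t + u j) := by
    unfold aQ
    rw [← Rat.divInt_eq_div]
    exact Rat.num_dvd _ hq.ne'
  have hd' : ((aQ t j).den : ℤ) ≤ t - u j := Int.le_of_dvd hq hd
  have hn0 : 0 < (aQ t j).num := Rat.num_pos.2 (aQ_pos t ht j)
  have hn' : (aQ t j).num ≤ t + u j := Int.le_of_dvd hp hn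
  have hmax : ((max (aQ t j).num.natAbs (aQ t j).den : ℕ) : ℤ) ≤ 2 * t := by
    push_cast
    rw [max_le_iff]
    constructor
    · rw [abs_of_pos hn0]; linarith
    · linarith
  have h9 : ((((max (aQ t j).num.natAbs (aQ t j).den : ℕ)) : ℤ) : ℝ) ≤ ((2 * t : ℤ) : ℝ) :=
    Int.cast_le.2 hmax
  rw [Int.cast_natCast] at h9
  refine h9.trans (le_of_eq ?_)
  push_cast
  ring

theorem one_le_height (q : ℚ) : (1:ℝ) ≤ ((max q.num.natAbs q.den : ℕ) : ℝ) := by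
  exact_mod_cast le_trans q.pos (le_max_right _ _)

theorem prodA_le (t : ℤ) (ht : 10^6 ≤ t) :
    ∏ j, (((max (aQ t j).num.natAbs (aQ t j).den : ℕ)) : ℝ) ^ 2 ≤ 256 * (t:ℝ)^8 := by
  have h : (10:ℝ)^6 ≤ (t:ℝ) := by exact_mod_cast ht
  have ht0 : (0:ℝ) < t := lt_of_lt_of_le (by norm_num) h
  calc ∏ j, (((max (aQ t j).num.natAbs (aQ t j).den : ℕ)) : ℝ) ^ 2
      ≤ ∏ _j : Fin 4, (2 * (t:ℝ))^2 := by
        apply Finset.prod_le_prod
        · intro j _; positivity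
        · intro j _
          exact pow_le_pow_left₀ (by positivity) (height_le t ht j) 2
    _ = 256 * (t:ℝ)^8 := by
        simp only [Finset.prod_const, Finset.card_univ, Fintype.card_fin]
        ring

theorem absb (t : ℤ) (ht : 10^6 ≤ t) (j : Fin 4) (hj : (j:ℕ) < 3) :
    ((max (b t j).natAbs 1 : ℕ) : ℝ) ≤ 10^4 * (t:ℝ)^2 := by
  have h := tsqZ t ht
  have hz : ((max (b t j).natAbs 1 : ℕ) : ℤ) ≤ 10^4 * t^2 := by
    push_cast
    rw [max_le_iff]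
    refine ⟨?_, by linarith⟩
    rw [abs_le]
    fin_cases j <;> simp at hj <;> simp [b] <;> constructor <;> linarith
  have h9 : (((max (b t j).natAbs 1 : ℕ) : ℤ) : ℝ) ≤ ((10^4 * t^2 : ℤ) : ℝ) := Int.cast_le.2 hz
  rw [Int.cast_natCast] at h9
  refine h9.trans (le_of_eq ?_)
  push_cast
  ring

theorem absb2 (t : ℤ) (j : Fin 4) (hj : 3 ≤ (j:ℕ)) :
    ((max (b t j).natAbs 1 : ℕ) : ℝ) ≤ 10^5 := by
  have hz : ((max (b t j).natAbs 1 : ℕ) : ℤ) ≤ 10^5 := by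
    push_cast
    rw [max_le_iff]
    refine ⟨?_, by norm_num⟩
    rw [abs_le]
    fin_cases j <;> simp at hj <;> simp [b]
  exact_mod_cast hz

theorem prodB_le (t : ℤ) (ht : 10^6 ≤ t) :
    ∏ j, ((max (b t j).natAbs 1 : ℕ) : ℝ) ≤ 10^17 * (t:ℝ)^6 := by
  have h0 := absb t ht 0 (by decide)
  have h1 := absb t ht 1 (by decide)
  have h2 := absb t ht 2 (by decide)
  have h3 := absb2 t 3 (by decide)
  rw [Fin.prod_univ_four]
  calc _ ≤ (10^4 * (t:ℝ)^2) * (10^4 * (t:ℝ)^2) * (10^4 * (t:ℝ)^2) * 10^5 := by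
        gcongr
    _ = 10^17 * (t:ℝ)^6 := by ring

/-- the coefficients for `n = 4 + k` terms -/
def bP (k : ℕ) (t : ℤ) : Fin (4 + k) → ℤ := Fin.append (b t) (fun _ => 1)

/-- the rational numbers for `n = 4 + k` terms -/
def aP (k : ℕ) (t : ℤ) : Fin (4 + k) → ℚ := Fin.append (aQ t) (fun _ => 1)

theorem aP_pos (k : ℕ) (t : ℤ) (ht : 10^6 ≤ t) (j : Fin (4 + k)) : 0 < aP k t j := by
  refine Fin.addCases (fun i => ?_) (fun i => ?_) j
  · rw [aP, Fin.append_left]; exact aQ_pos t ht i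
  · rw [aP, Fin.append_right]; norm_num

theorem bP_ne (k : ℕ) (t : ℤ) (ht : 10^6 ≤ t) (j : Fin (4 + k)) : bP k t j ≠ 0 := by
  refine Fin.addCases (fun i => ?_) (fun i => ?_) j
  · rw [bP, Fin.append_left]; exact b_ne t ht i
  · rw [bP, Fin.append_right]; norm_num

theorem sumP (k : ℕ) (t : ℤ) :
    ∑ j, ((bP k t j : ℤ) : ℝ) * Real.log ((aP k t j : ℚ) : ℝ) = F (t : ℝ) := by
  rw [Fin.sum_univ_add]
  simp only [aP, bP, Fin.append_left, Fin.append_right]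
  rw [sum_eq t]
  simp

/-- the product of all `B_j` and all `A_j ^ 2` -/
theorem sizeP (k : ℕ) (t : ℤ) :
    (∏ j, ((max (bP k t j).natAbs 1 : ℕ) : ℝ)) *
      (∏ j, (((max (aP k t j).num.natAbs (aP k t j).den : ℕ)) : ℝ) ^ 2) =
    (∏ j, ((max (b t j).natAbs 1 : ℕ) : ℝ)) *
      (∏ j, (((max (aQ t j).num.natAbs (aQ t j).den : ℕ)) : ℝ) ^ 2) := by
  rw [Fin.prod_univ_add, Fin.prod_univ_add
    (f := fun j => (((max (aP k t j).num.natAbs (aP k t j).den : ℕ)) : ℝ) ^ 2)]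
  simp only [aP, bP, Fin.append_left, Fin.append_right]
  simp

theorem size_le (k : ℕ) (t : ℤ) (ht : 10^6 ≤ t) :
    (∏ j, ((max (bP k t j).natAbs 1 : ℕ) : ℝ)) *
      (∏ j, (((max (aP k t j).num.natAbs (aP k t j).den : ℕ)) : ℝ) ^ 2) ≤ 10^28 * (t:ℝ)^14 := by
  have h : (10:ℝ)^6 ≤ (t:ℝ) := by exact_mod_cast ht
  have ht0 : (0:ℝ) < t := lt_of_lt_of_le (by norm_num) h
  rw [sizeP]
  have h1 := prodB_le t ht
  have h2 := prodA_le t ht
  calc _ ≤ (10^17 * (t:ℝ)^6) * (256 * (t:ℝ)^8) := by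
        apply mul_le_mul h1 h2
        · exact Finset.prod_nonneg fun _ _ => by positivity
        · positivity
    _ = (10^17 * 256) * (t:ℝ)^14 := by ring
    _ ≤ 10^28 * (t:ℝ)^14 := by
        gcongr
        norm_num

theorem b0_ge (t : ℤ) (ht : 10^6 ≤ t) : (t:ℝ)^2 ≤ ((max (b t 0).natAbs 1 : ℕ) : ℝ) := by
  have h := tsqZ t ht
  have hz : t^2 ≤ ((max (b t 0).natAbs 1 : ℕ) : ℤ) := by
    push_cast
    refine le_trans ?_ (le_max_left _ _)
    refine le_trans ?_ (le_abs_self _)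
    simp [b]
    linarith
  have h9 : ((t^2 : ℤ) : ℝ) ≤ (((max (b t 0).natAbs 1 : ℕ) : ℤ) : ℝ) := Int.cast_le.2 hz
  rw [Int.cast_natCast] at h9
  refine le_trans (le_of_eq ?_) h9
  push_cast
  ring

theorem le_size (k : ℕ) (t : ℤ) (ht : 10^6 ≤ t) :
    (t:ℝ) ≤ (∏ j, ((max (bP k t j).natAbs 1 : ℕ) : ℝ)) *
      (∏ j, (((max (aP k t j).num.natAbs (aP k t j).den : ℕ)) : ℝ) ^ 2) := by
  have h : (10:ℝ)^6 ≤ (t:ℝ) := by exact_mod_cast ht
  rw [sizeP]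
  have e1 : (1:ℝ) ≤ ∏ j, (((max (aQ t j).num.natAbs (aQ t j).den : ℕ)) : ℝ) ^ 2 := by
    calc (1:ℝ) = ∏ _j : Fin 4, (1:ℝ) := by simp
      _ ≤ _ := Finset.prod_le_prod (fun _ _ => by norm_num)
        (fun j _ => one_le_pow₀ (one_le_height _))
  have e2 : (t:ℝ)^2 ≤ ∏ j, ((max (b t j).natAbs 1 : ℕ) : ℝ) := by
    rw [Fin.prod_univ_succ]
    have e3 : (1:ℝ) ≤ ∏ j : Fin 3, ((max (b t j.succ).natAbs 1 : ℕ) : ℝ) := by
      calc (1:ℝ) = ∏ _j : Fin 3, (1:ℝ) := by simp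
        _ ≤ _ := Finset.prod_le_prod (fun _ _ => by norm_num)
          (fun j _ => by exact_mod_cast le_max_right _ _)
    have e4 := b0_ge t ht
    have e5 : (0:ℝ) ≤ (t:ℝ)^2 := by positivity
    nlinarith
  have e6 : (t:ℝ) ≤ (t:ℝ)^2 := by nlinarith
  nlinarith

theorem le_sup (k : ℕ) (t : ℤ) (ht : 10^6 ≤ t) :
    (t:ℝ)^2 ≤ ((Finset.univ.sup fun j => max (bP k t j).natAbs 1 : ℕ) : ℝ) := by
  refine (b0_ge t ht).trans ?_
  have h1 : max (bP k t (Fin.castAdd k 0)).natAbs 1 ≤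
      (Finset.univ.sup fun j => max (bP k t j).natAbs 1) :=
    Finset.le_sup (f := fun j => max (bP k t j).natAbs 1) (Finset.mem_univ _)
  have h2 : bP k t (Fin.castAdd k 0) = b t 0 := by
    rw [bP, Fin.append_left]
  rw [h2] at h1
  exact_mod_cast h1

/-- the family, with all estimates -/
theorem core (k : ℕ) (t : ℤ) (ht : 10^6 ≤ t) :
    (∀ j, 0 < aP k t j) ∧ (∀ j, bP k t j ≠ 0) ∧
    (∑ j, ((bP k t j : ℤ) : ℝ) * Real.log ((aP k t j : ℚ) : ℝ)) ≠ 0 ∧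
    (t:ℝ) ≤ (∏ j, ((max (bP k t j).natAbs 1 : ℕ) : ℝ)) *
      (∏ j, (((max (aP k t j).num.natAbs (aP k t j).den : ℕ)) : ℝ) ^ 2) ∧
    |∑ j, ((bP k t j : ℤ) : ℝ) * Real.log ((aP k t j : ℚ) : ℝ)| ≤
      10^43 * ((Finset.univ.sup fun j => max (bP k t j).natAbs 1 : ℕ) : ℝ) /
      ((∏ j, ((max (bP k t j).natAbs 1 : ℕ) : ℝ)) *
      (∏ j, (((max (aP k t j).num.natAbs (aP k t j).den : ℕ)) : ℝ) ^ 2)) ^ (15/14 : ℝ) := by
  have h : (10:ℝ)^6 ≤ (t:ℝ) := by exact_mod_cast ht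
  have ht0 : (0:ℝ) < t := lt_of_lt_of_le (by norm_num) h
  have hF := F_pos (t:ℝ) h
  have hs := size_le k t ht
  have hl := le_size k t ht
  have hB := le_sup k t ht
  rw [sumP]
  generalize (∏ j, ((max (bP k t j).natAbs 1 : ℕ) : ℝ)) *
      (∏ j, (((max (aP k t j).num.natAbs (aP k t j).den : ℕ)) : ℝ) ^ 2) = X at *
  generalize ((Finset.univ.sup fun j => max (bP k t j).natAbs 1 : ℕ) : ℝ) = B at *
  have hX0 : 0 < X := lt_of_lt_of_le ht0 hl
  refine ⟨aP_pos k t ht, bP_ne k t ht, hF.1.ne', hl, ?_⟩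
  rw [abs_of_pos hF.1]
  have hroot : X ^ (1/14 : ℝ) ≤ 10^2 * t := by
    have e1 : X ≤ (10^2 * (t:ℝ)) ^ 14 := by
      calc X ≤ 10^28 * (t:ℝ)^14 := hs
        _ = (10^2 * (t:ℝ)) ^ 14 := by ring
    calc X ^ (1/14 : ℝ) ≤ ((10^2 * (t:ℝ)) ^ 14) ^ (1/14 : ℝ) :=
          Real.rpow_le_rpow hX0.le e1 (by norm_num)
      _ = 10^2 * t := by
          rw [← Real.rpow_natCast, ← Real.rpow_mul (by positivity)]
          norm_num
  have e2 : X ^ (15/14 : ℝ) ≤ (10^2 * t)^15 := by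
    have e3 : X ^ (15/14 : ℝ) = (X ^ (1/14 : ℝ)) ^ 15 := by
      rw [← Real.rpow_natCast, ← Real.rpow_mul hX0.le]
      norm_num
    rw [e3]
    gcongr
  have hXp : 0 < X ^ (15/14 : ℝ) := Real.rpow_pos_of_pos hX0 _
  refine hF.2.trans ?_
  rw [div_le_div_iff₀ (by positivity) hXp]
  calc 10^13 * X ^ (15/14 : ℝ) ≤ 10^13 * (10^2 * t)^15 := by gcongr
    _ = (10^43 * (t:ℝ)^2) * (t:ℝ)^13 := by ring
    _ ≤ (10^43 * B) * (t:ℝ)^13 := by
        gcongr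

end Pool.Agent.H17.LF
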