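import Pool.Agent.H17.LF.Fam

/-!
# The family at solutions of a Pell equation

If `r ^ 2 + 1 = 2 s ^ 2` and `t = 7 (2 r ^ 2 + 1)`, then `(t + 7) / (t - 7) = 2 s ^ 2 / r ^ 2` is twice
a square, so that `log ((t + 7) / (t - 7)) = 2 log (2 ^ 25 s / r) - 49 log 2`, with a number of height
about `√t`.  The multiple of `log 2` is absorbed by the other terms, since
`32 b_0 + 20 b_1 + 12 b_2 = - 49 * 22880`.
-/

set_option autoImplicit false

open Finset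

namespace Pool.Agent.H17.LF.P

/-- solutions `(r, s)` of `r ^ 2 + 1 = 2 s ^ 2` -/
def pell : ℕ → ℤ × ℤ
  | 0 => (1, 1)
  | n + 1 => (3 * (pell n).1 + 4 * (pell n).2, 2 * (pell n).1 + 3 * (pell n).2)

theorem pell_spec (n : ℕ) : (pell n).1 ^ 2 + 1 = 2 * (pell n).2 ^ 2 ∧ 1 ≤ (pell n).2 ∧
    (pell n).2 ≤ (pell n).1 ∧ (n : ℤ) + 1 ≤ (pell n).1 := by
  induction n with
  | zero => simp [pell]
  | succ n ih =>
    obtain ⟨h1, h2, h3, h4⟩ := ih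
    simp only [pell]
    push_cast
    refine ⟨by linear_combination h1, by linarith, by linarith, by linarith⟩

/-- The four positive rational numbers. -/
def aR (t r s : ℤ) : Fin 4 → ℚ :=
  ![((2 ^ 32 * (t + 8) : ℤ) : ℚ) / ((t - 8 : ℤ) : ℚ), ((2 ^ 20 * (t + 5) : ℤ) : ℚ) / ((t - 5 : ℤ) : ℚ),
    ((2 ^ 12 * (t + 3) : ℤ) : ℚ) / ((t - 3 : ℤ) : ℚ), ((2 ^ 25 * s : ℤ) : ℚ) / (r : ℚ)]

/-- The four integer coefficients. -/
def bR (t : ℤ) : Fin 4 → ℤ :=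
  ![1001 * t^2 + (-59584), (-1001) * t^2 + 40425, (-1001) * t^2 + (-1911), 45760]

theorem height_div_le (p q M : ℤ) (hp : 0 < p) (hq : 0 < q) (h1 : p ≤ M) (h2 : q ≤ M) :
    ((max (((p : ℚ) / (q : ℚ)).num.natAbs) (((p : ℚ) / (q : ℚ)).den) : ℕ) : ℝ) ≤ (M : ℝ) := by
  have hd : (((((p : ℚ) / (q : ℚ)).den : ℕ)) : ℤ) ∣ q := by
    rw [← Rat.divInt_eq_div]
    exact Rat.den_dvd _ _
  have hn : ((p : ℚ) / (q : ℚ)).num ∣ p := by
    rw [← Rat.divInt_eq_div]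
    exact Rat.num_dvd _ hq.ne'
  have hpos : (0 : ℚ) < (p : ℚ) / (q : ℚ) := by
    have e1 : (0 : ℚ) < p := by exact_mod_cast hp
    have e2 : (0 : ℚ) < q := by exact_mod_cast hq
    positivity
  have hn0 : 0 < ((p : ℚ) / (q : ℚ)).num := Rat.num_pos.2 hpos
  have hd' := Int.le_of_dvd hq hd
  have hn' := Int.le_of_dvd hp hn
  have hmax : ((max (((p : ℚ) / (q : ℚ)).num.natAbs) (((p : ℚ) / (q : ℚ)).den) : ℕ) : ℤ) ≤ M := by
    push_cast
    rw [max_le_iff]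
    exact ⟨by rw [abs_of_pos hn0]; linarith, by linarith⟩
  have h9 : ((((max (((p : ℚ) / (q : ℚ)).num.natAbs) (((p : ℚ) / (q : ℚ)).den) : ℕ)) : ℤ) : ℝ) ≤
      ((M : ℤ) : ℝ) := Int.cast_le.2 hmax
  rw [Int.cast_natCast] at h9
  exact h9

section

variable (t r s : ℤ)

theorem aR_pos (ht : 10^6 ≤ t) (hr : 1 ≤ r) (hs : 1 ≤ s) (j : Fin 4) : 0 < aR t r s j := by
  have h8 : (0 : ℤ) < t - 8 := by linarith
  have h5 : (0 : ℤ) < t - 5 := by linarith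
  have h3 : (0 : ℤ) < t - 3 := by linarith
  fin_cases j
  · have e1 : (0 : ℚ) < ((2 ^ 32 * (t + 8) : ℤ) : ℚ) := by
      exact_mod_cast (by linarith : (0 : ℤ) < 2 ^ 32 * (t + 8))
    have e2 : (0 : ℚ) < ((t - 8 : ℤ) : ℚ) := by exact_mod_cast h8
    exact div_pos e1 e2
  · have e1 : (0 : ℚ) < ((2 ^ 20 * (t + 5) : ℤ) : ℚ) := by
      exact_mod_cast (by linarith : (0 : ℤ) < 2 ^ 20 * (t + 5))
    have e2 : (0 : ℚ) < ((t - 5 : ℤ) : ℚ) := by exact_mod_cast h5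
    exact div_pos e1 e2
  · have e1 : (0 : ℚ) < ((2 ^ 12 * (t + 3) : ℤ) : ℚ) := by
      exact_mod_cast (by linarith : (0 : ℤ) < 2 ^ 12 * (t + 3))
    have e2 : (0 : ℚ) < ((t - 3 : ℤ) : ℚ) := by exact_mod_cast h3
    exact div_pos e1 e2
  · have e1 : (0 : ℚ) < ((2 ^ 25 * s : ℤ) : ℚ) := by
      exact_mod_cast (by linarith : (0 : ℤ) < 2 ^ 25 * s)
    have e2 : (0 : ℚ) < (r : ℚ) := by exact_mod_cast (by linarith : (0 : ℤ) < r)
    exact div_pos e1 e2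

theorem bR_ne (ht : 10^6 ≤ t) (j : Fin 4) : bR t j ≠ 0 := by
  have h := tsqZ t ht
  fin_cases j <;> simp [bR] <;> intro h0 <;> linarith

theorem sum_eq (ht : 10^6 ≤ t) (hr : 1 ≤ r) (hs : 1 ≤ s) (hrs : r ^ 2 + 1 = 2 * s ^ 2)
    (htr : t = 7 * (2 * r ^ 2 + 1)) :
    ∑ j, ((bR t j : ℤ) : ℝ) * Real.log ((aR t r s j : ℚ) : ℝ) = F (t : ℝ) := by
  have hT : (10:ℝ)^6 ≤ (t:ℝ) := by exact_mod_cast ht
  have hR : (1:ℝ) ≤ (r:ℝ) := by exact_mod_cast hr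
  have hS : (1:ℝ) ≤ (s:ℝ) := by exact_mod_cast hs
  have hRS : (r:ℝ) ^ 2 + 1 = 2 * (s:ℝ) ^ 2 := by exact_mod_cast hrs
  have hTR : (t:ℝ) = 7 * (2 * (r:ℝ) ^ 2 + 1) := by exact_mod_cast htr
  have key : ∀ (m : ℕ) (c : ℝ), 0 ≤ c → c ≤ 8 →
      Real.log (2 ^ m * ((t:ℝ) + c) / ((t:ℝ) - c)) =
        m * Real.log 2 + Real.log (((t:ℝ) + c) / ((t:ℝ) - c)) := by
    intro m c hc hc8
    have h1 : 0 < (t:ℝ) + c := by linarith
    have h2 : 0 < (t:ℝ) - c := by linarith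
    rw [mul_div_assoc, Real.log_mul (by positivity) (by positivity), Real.log_pow]
  have k4 : Real.log (2 ^ 25 * (s:ℝ) / (r:ℝ)) = 25 * Real.log 2 + Real.log s - Real.log r := by
    rw [Real.log_div (by positivity) (by positivity), Real.log_mul (by positivity) (by positivity),
      Real.log_pow]
    norm_num
  have k5 : Real.log (((t:ℝ) + 7) / ((t:ℝ) - 7)) = Real.log 2 + 2 * Real.log s - 2 * Real.log r := by
    have e : ((t:ℝ) + 7) / ((t:ℝ) - 7) = 2 * (s:ℝ) ^ 2 / (r:ℝ) ^ 2 := by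
      have h7 : (t:ℝ) - 7 = 14 * (r:ℝ) ^ 2 := by rw [hTR]; ring
      have h7' : (t:ℝ) + 7 = 14 * (2 * (s:ℝ) ^ 2) := by rw [hTR, ← hRS]; ring
      rw [h7, h7']
      field_simp
    rw [e, Real.log_div (by positivity) (by positivity), Real.log_mul (by positivity) (by positivity),
      Real.log_pow, Real.log_pow]
    norm_num
  have k1 := key 32 8 (by norm_num) (by norm_num)
  have k2 := key 20 5 (by norm_num) (by norm_num)
  have k3 := key 12 3 (by norm_num) (by norm_num)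
  rw [show ((2:ℝ)^32) = 4294967296 by norm_num] at k1
  rw [show ((2:ℝ)^20) = 1048576 by norm_num] at k2
  rw [show ((2:ℝ)^12) = 4096 by norm_num] at k3
  rw [show ((2:ℝ)^25) = 33554432 by norm_num] at k4
  unfold F
  rw [k5]
  simp only [Fin.sum_univ_succ, Fin.sum_univ_zero]
  simp only [aR, bR, Matrix.cons_val_zero, Matrix.cons_val_succ, Fin.isValue]
  push_cast
  rw [k1, k2, k3, k4]
  push_cast
  ring

theorem prodA_le (ht : 10^6 ≤ t) (hr : 1 ≤ r) (hs : 1 ≤ s) (hsr : s ≤ r)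
    (htr : t = 7 * (2 * r ^ 2 + 1)) :
    ∏ j, (((max (aR t r s j).num.natAbs (aR t r s j).den : ℕ)) : ℝ) ^ 2 ≤ 10^56 * (t:ℝ)^7 := by
  have hT : (10:ℝ)^6 ≤ (t:ℝ) := by exact_mod_cast ht
  have hT0 : (0:ℝ) < t := by linarith
  have hR : (1:ℝ) ≤ (r:ℝ) := by exact_mod_cast hr
  have hTR : (t:ℝ) = 7 * (2 * (r:ℝ) ^ 2 + 1) := by exact_mod_cast htr
  have h0 : ((max (aR t r s 0).num.natAbs (aR t r s 0).den : ℕ) : ℝ) ≤ ((2 ^ 33 * t : ℤ) : ℝ) :=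
    height_div_le _ _ _ (by linarith) (by linarith) (by linarith) (by linarith)
  have h1 : ((max (aR t r s 1).num.natAbs (aR t r s 1).den : ℕ) : ℝ) ≤ ((2 ^ 21 * t : ℤ) : ℝ) :=
    height_div_le _ _ _ (by linarith) (by linarith) (by linarith) (by linarith)
  have h2 : ((max (aR t r s 2).num.natAbs (aR t r s 2).den : ℕ) : ℝ) ≤ ((2 ^ 13 * t : ℤ) : ℝ) :=
    height_div_le _ _ _ (by linarith) (by linarith) (by linarith) (by linarith)
  have h3 : ((max (aR t r s 3).num.natAbs (aR t r s 3).den : ℕ) : ℝ) ≤ ((2 ^ 25 * r : ℤ) : ℝ) :=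
    height_div_le _ _ _ (by linarith) (by linarith) (by linarith) (by linarith)
  push_cast at h0 h1 h2 h3
  have hrt : (r:ℝ) ^ 2 ≤ t := by nlinarith
  rw [Fin.prod_univ_four]
  push_cast
  calc _ ≤ (8589934592 * (t:ℝ)) ^ 2 * (2097152 * (t:ℝ)) ^ 2 * (8192 * (t:ℝ)) ^ 2 *
        (33554432 * (r:ℝ)) ^ 2 := by
        gcongr
    _ = 2 ^ 184 * (t:ℝ) ^ 6 * (r:ℝ) ^ 2 := by ring
    _ ≤ 10 ^ 56 * (t:ℝ) ^ 6 * t := by
        gcongr
        norm_num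
    _ = 10 ^ 56 * (t:ℝ) ^ 7 := by ring

theorem absb (ht : 10^6 ≤ t) (j : Fin 4) (hj : (j:ℕ) < 3) :
    ((max (bR t j).natAbs 1 : ℕ) : ℝ) ≤ 10^4 * (t:ℝ)^2 := by
  have h := tsqZ t ht
  have hz : ((max (bR t j).natAbs 1 : ℕ) : ℤ) ≤ 10^4 * t^2 := by
    push_cast
    rw [max_le_iff]
    refine ⟨?_, by linarith⟩
    rw [abs_le]
    fin_cases j <;> simp at hj <;> simp [bR] <;> constructor <;> linarith
  have h9 : (((max (bR t j).natAbs 1 : ℕ) : ℤ) : ℝ) ≤ ((10^4 * t^2 : ℤ) : ℝ) := Int.cast_le.2 hz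
  rw [Int.cast_natCast] at h9
  refine h9.trans (le_of_eq ?_)
  push_cast
  ring

theorem prodB_le (ht : 10^6 ≤ t) :
    ∏ j, ((max (bR t j).natAbs 1 : ℕ) : ℝ) ≤ 10^17 * (t:ℝ)^6 := by
  have h0 := absb t ht 0 (by decide)
  have h1 := absb t ht 1 (by decide)
  have h2 := absb t ht 2 (by decide)
  have h3 : ((max (bR t 3).natAbs 1 : ℕ) : ℝ) ≤ 10^5 := by
    simp [bR]
    norm_num
  rw [Fin.prod_univ_four]
  calc _ ≤ (10^4 * (t:ℝ)^2) * (10^4 * (t:ℝ)^2) * (10^4 * (t:ℝ)^2) * 10^5 := by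
        gcongr
    _ = 10^17 * (t:ℝ)^6 := by ring

theorem b0_ge (ht : 10^6 ≤ t) : (t:ℝ)^2 ≤ ((max (bR t 0).natAbs 1 : ℕ) : ℝ) := by
  have h := tsqZ t ht
  have hz : t^2 ≤ ((max (bR t 0).natAbs 1 : ℕ) : ℤ) := by
    push_cast
    refine le_trans ?_ (le_max_left _ _)
    refine le_trans ?_ (le_abs_self _)
    simp [bR]
    linarith
  have h9 : ((t^2 : ℤ) : ℝ) ≤ (((max (bR t 0).natAbs 1 : ℕ) : ℤ) : ℝ) := Int.cast_le.2 hz
  rw [Int.cast_natCast] at h9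
  refine le_trans (le_of_eq ?_) h9
  push_cast
  ring

end

/-- the coefficients for `n = 4 + k` terms -/
def bP (k : ℕ) (t : ℤ) : Fin (4 + k) → ℤ := Fin.append (bR t) (fun _ => 1)

/-- the rational numbers for `n = 4 + k` terms -/
def aP (k : ℕ) (t r s : ℤ) : Fin (4 + k) → ℚ := Fin.append (aR t r s) (fun _ => 1)

/-- the product of all `B_j` and all `A_j ^ 2` -/
theorem sizeP (k : ℕ) (t r s : ℤ) :
    (∏ j, ((max (bP k t j).natAbs 1 : ℕ) : ℝ)) *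
      (∏ j, (((max (aP k t r s j).num.natAbs (aP k t r s j).den : ℕ)) : ℝ) ^ 2) =
    (∏ j, ((max (bR t j).natAbs 1 : ℕ) : ℝ)) *
      (∏ j, (((max (aR t r s j).num.natAbs (aR t r s j).den : ℕ)) : ℝ) ^ 2) := by
  rw [Fin.prod_univ_add, Fin.prod_univ_add
    (f := fun j => (((max (aP k t r s j).num.natAbs (aP k t r s j).den : ℕ)) : ℝ) ^ 2)]
  simp only [aP, bP, Fin.append_left, Fin.append_right]
  simp

/-- the family, with all estimates -/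
theorem core (k : ℕ) (t r s : ℤ) (ht : 10^6 ≤ t) (hs : 1 ≤ s) (hsr : s ≤ r)
    (hrs : r ^ 2 + 1 = 2 * s ^ 2) (htr : t = 7 * (2 * r ^ 2 + 1)) :
    (∀ j, 0 < aP k t r s j) ∧ (∀ j, bP k t j ≠ 0) ∧
    (∑ j, ((bP k t j : ℤ) : ℝ) * Real.log ((aP k t r s j : ℚ) : ℝ)) ≠ 0 ∧
    (t:ℝ) ≤ (∏ j, ((max (bP k t j).natAbs 1 : ℕ) : ℝ)) *
      (∏ j, (((max (aP k t r s j).num.natAbs (aP k t r s j).den : ℕ)) : ℝ) ^ 2) ∧
    |∑ j, ((bP k t j : ℤ) : ℝ) * Real.log ((aP k t r s j : ℚ) : ℝ)| ≤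
      10^103 * ((Finset.univ.sup fun j => max (bP k t j).natAbs 1 : ℕ) : ℝ) /
      ((∏ j, ((max (bP k t j).natAbs 1 : ℕ) : ℝ)) *
      (∏ j, (((max (aP k t r s j).num.natAbs (aP k t r s j).den : ℕ)) : ℝ) ^ 2)) ^ (15/13 : ℝ) := by
  have h : (10:ℝ)^6 ≤ (t:ℝ) := by exact_mod_cast ht
  have ht0 : (0:ℝ) < t := lt_of_lt_of_le (by norm_num) h
  have hr : 1 ≤ r := hs.trans hsr
  have hF := F_pos (t:ℝ) h
  have hs1 : (∏ j, ((max (bP k t j).natAbs 1 : ℕ) : ℝ)) *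
      (∏ j, (((max (aP k t r s j).num.natAbs (aP k t r s j).den : ℕ)) : ℝ) ^ 2) ≤
      10^78 * (t:ℝ)^13 := by
    rw [sizeP]
    calc _ ≤ (10^17 * (t:ℝ)^6) * (10^56 * (t:ℝ)^7) := by
          apply mul_le_mul (prodB_le t ht) (prodA_le t r s ht hr hs hsr htr)
          · exact Finset.prod_nonneg fun _ _ => by positivity
          · positivity
      _ = 10^73 * (t:ℝ)^13 := by ring
      _ ≤ 10^78 * (t:ℝ)^13 := by
          gcongr <;> norm_num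
  have hl : (t:ℝ) ≤ (∏ j, ((max (bP k t j).natAbs 1 : ℕ) : ℝ)) *
      (∏ j, (((max (aP k t r s j).num.natAbs (aP k t r s j).den : ℕ)) : ℝ) ^ 2) := by
    rw [sizeP]
    have e1 : (1:ℝ) ≤ ∏ j, (((max (aR t r s j).num.natAbs (aR t r s j).den : ℕ)) : ℝ) ^ 2 := by
      calc (1:ℝ) = ∏ _j : Fin 4, (1:ℝ) := by simp
        _ ≤ _ := Finset.prod_le_prod (fun _ _ => by norm_num)
          (fun j _ => one_le_pow₀ (one_le_height _))
    have e2 : (t:ℝ)^2 ≤ ∏ j, ((max (bR t j).natAbs 1 : ℕ) : ℝ) := by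
      rw [Fin.prod_univ_succ]
      have e3 : (1:ℝ) ≤ ∏ j : Fin 3, ((max (bR t j.succ).natAbs 1 : ℕ) : ℝ) := by
        calc (1:ℝ) = ∏ _j : Fin 3, (1:ℝ) := by simp
          _ ≤ _ := Finset.prod_le_prod (fun _ _ => by norm_num)
            (fun j _ => by exact_mod_cast le_max_right _ _)
      have e4 := b0_ge t ht
      have e5 : (0:ℝ) ≤ (t:ℝ)^2 := by positivity
      nlinarith
    have e6 : (t:ℝ) ≤ (t:ℝ)^2 := by nlinarith
    nlinarith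
  have hB : (t:ℝ)^2 ≤ ((Finset.univ.sup fun j => max (bP k t j).natAbs 1 : ℕ) : ℝ) := by
    refine (b0_ge t ht).trans ?_
    have h1 : max (bP k t (Fin.castAdd k 0)).natAbs 1 ≤
        (Finset.univ.sup fun j => max (bP k t j).natAbs 1) :=
      Finset.le_sup (f := fun j => max (bP k t j).natAbs 1) (Finset.mem_univ _)
    have h2 : bP k t (Fin.castAdd k 0) = bR t 0 := by
      rw [bP, Fin.append_left]
    rw [h2] at h1
    exact_mod_cast h1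
  have hsum : ∑ j, ((bP k t j : ℤ) : ℝ) * Real.log ((aP k t r s j : ℚ) : ℝ) = F (t : ℝ) := by
    rw [Fin.sum_univ_add]
    simp only [aP, bP, Fin.append_left, Fin.append_right]
    rw [sum_eq t r s ht hr hs hrs htr]
    simp
  rw [hsum]
  have hp : ∀ j, 0 < aP k t r s j := by
    intro j
    refine Fin.addCases (fun i => ?_) (fun i => ?_) j
    · rw [aP, Fin.append_left]; exact aR_pos t r s ht hr hs i
    · rw [aP, Fin.append_right]; norm_num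
  have hne : ∀ j, bP k t j ≠ 0 := by
    intro j
    refine Fin.addCases (fun i => ?_) (fun i => ?_) j
    · rw [bP, Fin.append_left]; exact bR_ne t ht i
    · rw [bP, Fin.append_right]; norm_num
  refine ⟨hp, hne, hF.1.ne', hl, ?_⟩
  generalize (∏ j, ((max (bP k t j).natAbs 1 : ℕ) : ℝ)) *
      (∏ j, (((max (aP k t r s j).num.natAbs (aP k t r s j).den : ℕ)) : ℝ) ^ 2) = X at *
  generalize ((Finset.univ.sup fun j => max (bP k t j).natAbs 1 : ℕ) : ℝ) = B at *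
  have hX0 : 0 < X := lt_of_lt_of_le ht0 hl
  rw [abs_of_pos hF.1]
  have hroot : X ^ (1/13 : ℝ) ≤ 10^6 * t := by
    have e1 : X ≤ (10^6 * (t:ℝ)) ^ 13 := by
      calc X ≤ 10^78 * (t:ℝ)^13 := hs1
        _ = (10^6 * (t:ℝ)) ^ 13 := by ring
    calc X ^ (1/13 : ℝ) ≤ ((10^6 * (t:ℝ)) ^ 13) ^ (1/13 : ℝ) :=
          Real.rpow_le_rpow hX0.le e1 (by norm_num)
      _ = 10^6 * t := by
          rw [← Real.rpow_natCast, ← Real.rpow_mul (by positivity)]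
          norm_num
  have e2 : X ^ (15/13 : ℝ) ≤ (10^6 * t)^15 := by
    have e3 : X ^ (15/13 : ℝ) = (X ^ (1/13 : ℝ)) ^ 15 := by
      rw [← Real.rpow_natCast, ← Real.rpow_mul hX0.le]
      norm_num
    rw [e3]
    gcongr
  have hXp : 0 < X ^ (15/13 : ℝ) := Real.rpow_pos_of_pos hX0 _
  refine hF.2.trans ?_
  rw [div_le_div_iff₀ (by positivity) hXp]
  calc 10^13 * X ^ (15/13 : ℝ) ≤ 10^13 * (10^6 * t)^15 := by gcongr
    _ = (10^103 * (t:ℝ)^2) * (t:ℝ)^13 := by ring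
    _ ≤ (10^103 * B) * (t:ℝ)^13 := by
        gcongr

/-- there are members of the family with arbitrarily large `t` -/
theorem exists_large (H : ℝ) : ∃ t r s : ℤ, 10^6 ≤ t ∧ H < t ∧ 1 ≤ s ∧ s ≤ r ∧
    r ^ 2 + 1 = 2 * s ^ 2 ∧ t = 7 * (2 * r ^ 2 + 1) := by
  obtain ⟨N, hN⟩ := exists_nat_gt H
  obtain ⟨M, hM⟩ : ∃ M : ℕ, N + 1000000 ≤ M := ⟨_, le_rfl⟩
  have hM' : (N : ℤ) + 1000000 ≤ M := by exact_mod_cast hM
  obtain ⟨h1, h2, h3, h4⟩ := pell_spec M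
  generalize (pell M).1 = r at *
  generalize (pell M).2 = s at *
  have hN0 : (0 : ℤ) ≤ N := Int.natCast_nonneg N
  refine ⟨7 * (2 * r ^ 2 + 1), r, s, ?_, ?_, h2, h3, h1, rfl⟩
  · norm_num
    nlinarith
  · have e1 : (N : ℤ) ≤ 7 * (2 * r ^ 2 + 1) := by nlinarith
    have e2 : (N : ℝ) ≤ ((7 * (2 * r ^ 2 + 1) : ℤ) : ℝ) := by exact_mod_cast e1
    linarith

end Pool.Agent.H17.LF.P
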