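import Mathlib

/-!
# A family of linear forms in four logarithms of rational numbers

`F t = ∑ b_j(t) log ((t + u_j) / (t - u_j))` with `u = (8, 5, 3, 7)`, `b_j` quadratic in `t` for
`u_j = 8, 5, 3` and constant for `u_j = 7`; `F t` is about `c / t ^ 13`.  Here `8 = 5 + 3` and
`7 ^ 2 = 5 ^ 2 + 5 * 3 + 3 ^ 2`, so that `(t + 8) (t - 5) (t - 3) = t ^ 3 - 49 t + 120`.
-/

set_option autoImplicit false

open Finset

namespace Pool.Agent.H17.LF

/-- Truncated odd series. -/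
theorem odd13 (x : ℝ) (h0 : 0 < x) (h1 : x ≤ 1/2) :
    |Real.log (1+x) - Real.log (1-x) - 2 * (x + x^3/3 + x^5/5 + x^7/7 + x^9/9 + x^11/11 + x^13/13)| ≤ 4 * x^15 := by
  have hx1 : |x| < 1 := by rw [abs_of_pos h0]; linarith
  have hx2 : |(-x)| < 1 := by rw [abs_neg]; exact hx1
  have e1 := Real.abs_log_sub_add_sum_range_le hx1 14
  have e2 := Real.abs_log_sub_add_sum_range_le hx2 14
  rw [abs_neg] at e2
  rw [abs_of_pos h0] at e1 e2
  have e3 : x ^ (14+1) / (1 - x) ≤ 2 * x^15 := by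
    rw [div_le_iff₀ (by linarith)]
    have h3 : 0 < x^15 := by positivity
    have h4 : x ^ (14+1) = x^15 := by norm_num
    rw [h4]
    nlinarith [mul_nonneg h3.le (by linarith : (0:ℝ) ≤ 1/2 - x)]
  simp only [Finset.sum_range_succ, Finset.sum_range_zero] at e1 e2
  rw [sub_neg_eq_add] at e2
  rw [abs_le] at e1 e2 ⊢
  push_cast at e1 e2
  norm_num at e1 e2
  norm_num at e3
  constructor
  · linarith [e1.1, e1.2, e2.1, e2.2]
  · linarith [e1.1, e1.2, e2.1, e2.2]

/-- Truncated odd series. -/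
theorem odd15 (x : ℝ) (h0 : 0 < x) (h1 : x ≤ 1/2) :
    |Real.log (1+x) - Real.log (1-x) - 2 * (x + x^3/3 + x^5/5 + x^7/7 + x^9/9 + x^11/11 + x^13/13 + x^15/15)| ≤ 4 * x^17 := by
  have hx1 : |x| < 1 := by rw [abs_of_pos h0]; linarith
  have hx2 : |(-x)| < 1 := by rw [abs_neg]; exact hx1
  have e1 := Real.abs_log_sub_add_sum_range_le hx1 16
  have e2 := Real.abs_log_sub_add_sum_range_le hx2 16
  rw [abs_neg] at e2
  rw [abs_of_pos h0] at e1 e2
  have e3 : x ^ (16+1) / (1 - x) ≤ 2 * x^17 := by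
    rw [div_le_iff₀ (by linarith)]
    have h3 : 0 < x^17 := by positivity
    have h4 : x ^ (16+1) = x^17 := by norm_num
    rw [h4]
    nlinarith [mul_nonneg h3.le (by linarith : (0:ℝ) ≤ 1/2 - x)]
  simp only [Finset.sum_range_succ, Finset.sum_range_zero] at e1 e2
  rw [sub_neg_eq_add] at e2
  rw [abs_le] at e1 e2 ⊢
  push_cast at e1 e2
  norm_num at e1 e2
  norm_num at e3
  constructor
  · linarith [e1.1, e1.2, e2.1, e2.2]
  · linarith [e1.1, e1.2, e2.1, e2.2]

theorem main_identity (t : ℝ) (ht : t ≠ 0) :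
    (1001) * t^2 * (2 * (8/t + (8/t)^3/3 + (8/t)^5/5 + (8/t)^7/7 + (8/t)^9/9 + (8/t)^11/11 + (8/t)^13/13 + (8/t)^15/15))
    + (-1001) * t^2 * (2 * (5/t + (5/t)^3/3 + (5/t)^5/5 + (5/t)^7/7 + (5/t)^9/9 + (5/t)^11/11 + (5/t)^13/13 + (5/t)^15/15))
    + (-1001) * t^2 * (2 * (3/t + (3/t)^3/3 + (3/t)^5/5 + (3/t)^7/7 + (3/t)^9/9 + (3/t)^11/11 + (3/t)^13/13 + (3/t)^15/15))
    + (-59584) * (2 * (8/t + (8/t)^3/3 + (8/t)^5/5 + (8/t)^7/7 + (8/t)^9/9 + (8/t)^11/11 + (8/t)^13/13))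
    + (40425) * (2 * (5/t + (5/t)^3/3 + (5/t)^5/5 + (5/t)^7/7 + (5/t)^9/9 + (5/t)^11/11 + (5/t)^13/13))
    + (-1911) * (2 * (3/t + (3/t)^3/3 + (3/t)^5/5 + (3/t)^7/7 + (3/t)^9/9 + (3/t)^11/11 + (3/t)^13/13))
    + (22880) * (2 * (7/t + (7/t)^3/3 + (7/t)^5/5 + (7/t)^7/7 + (7/t)^9/9 + (7/t)^11/11 + (7/t)^13/13)) =
    1021870080000 / t^13 := by
  field_simp
  ring

/-- The value of the linear form at a real number `t`. -/
noncomputable def F (t : ℝ) : ℝ :=
  ((1001) * t^2 + (-59584)) * Real.log ((t + 8)/(t - 8))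
    + ((-1001) * t^2 + (40425)) * Real.log ((t + 5)/(t - 5))
    + ((-1001) * t^2 + (-1911)) * Real.log ((t + 3)/(t - 3))
    + (22880) * Real.log ((t + 7)/(t - 7))

theorem log_ratio (t u : ℝ) (ht : 0 < t) (hu : 0 < u) (hut : u < t) :
    Real.log ((t + u)/(t - u)) = Real.log (1 + u/t) - Real.log (1 - u/t) := by
  have h2 : 0 < 1 - u/t := by
    have : u / t < 1 := by rw [div_lt_one ht]; exact hut
    linarith
  have h3 : 0 < 1 + u/t := by positivity
  rw [← Real.log_div h3.ne' h2.ne']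
  congr 1
  field_simp

theorem F_eq (t : ℝ) (ht : 10^6 ≤ t) :
    F t = (1001) * t^2 * (Real.log (1 + 8/t) - Real.log (1 - 8/t))
    + (-1001) * t^2 * (Real.log (1 + 5/t) - Real.log (1 - 5/t))
    + (-1001) * t^2 * (Real.log (1 + 3/t) - Real.log (1 - 3/t))
    + (-59584) * (Real.log (1 + 8/t) - Real.log (1 - 8/t))
    + (40425) * (Real.log (1 + 5/t) - Real.log (1 - 5/t))
    + (-1911) * (Real.log (1 + 3/t) - Real.log (1 - 3/t))
    + (22880) * (Real.log (1 + 7/t) - Real.log (1 - 7/t)) := by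
  have ht0 : 0 < t := lt_of_lt_of_le (by norm_num) ht
  unfold F
  rw [log_ratio t 8 ht0 (by norm_num) (by linarith), log_ratio t 5 ht0 (by norm_num) (by linarith), log_ratio t 3 ht0 (by norm_num) (by linarith), log_ratio t 7 ht0 (by norm_num) (by linarith)]
  ring

theorem term_bound (c l p e K : ℝ) (h : |l - p| ≤ e) (hc : |c| ≤ K) (hK : 0 ≤ K) :
    |c * l - c * p| ≤ K * e := by
  rw [← mul_sub, abs_mul]
  exact mul_le_mul hc h (abs_nonneg _) hK

theorem F_est (t : ℝ) (ht : 10^6 ≤ t) :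
    |F t - 1021870080000 / t^13| ≤ 10^20 / t^15 := by
  have ht0 : 0 < t := lt_of_lt_of_le (by norm_num) ht
  have ht2 : (10:ℝ)^12 ≤ t^2 := by
    calc (10:ℝ)^12 = (10^6)^2 := by norm_num
      _ ≤ t^2 := by gcongr
  have hid := main_identity t ht0.ne'
  have e0 := term_bound ((1001) * t^2) _ _ _ (1001 * t^2) (odd15 (8/t) (by positivity) (by rw [div_le_iff₀ ht0]; linarith)) (by rw [abs_le]; constructor <;> linarith) (by positivity)
  have e1 := term_bound ((-1001) * t^2) _ _ _ (1001 * t^2) (odd15 (5/t) (by positivity) (by rw [div_le_iff₀ ht0]; linarith)) (by rw [abs_le]; constructor <;> linarith) (by positivity)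
  have e2 := term_bound ((-1001) * t^2) _ _ _ (1001 * t^2) (odd15 (3/t) (by positivity) (by rw [div_le_iff₀ ht0]; linarith)) (by rw [abs_le]; constructor <;> linarith) (by positivity)
  have e3 := term_bound ((-59584)) _ _ _ (59584) (odd13 (8/t) (by positivity) (by rw [div_le_iff₀ ht0]; linarith)) (by rw [abs_le]; constructor <;> norm_num) (by positivity)
  have e4 := term_bound ((40425)) _ _ _ (40425) (odd13 (5/t) (by positivity) (by rw [div_le_iff₀ ht0]; linarith)) (by rw [abs_le]; constructor <;> norm_num) (by positivity)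
  have e5 := term_bound ((-1911)) _ _ _ (1911) (odd13 (3/t) (by positivity) (by rw [div_le_iff₀ ht0]; linarith)) (by rw [abs_le]; constructor <;> norm_num) (by positivity)
  have e6 := term_bound ((22880)) _ _ _ (22880) (odd13 (7/t) (by positivity) (by rw [div_le_iff₀ ht0]; linarith)) (by rw [abs_le]; constructor <;> norm_num) (by positivity)
  have f0 : 1001 * t^2 * (4 * (8/t)^17) ≤ (10^19) / t^15 := by
    have : 1001 * t^2 * (4 * (8/t)^17) = (4 * 1001 * 8^17) / t^15 := by field_simp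
    rw [this]
    gcongr
    norm_num
  have f1 : 1001 * t^2 * (4 * (5/t)^17) ≤ (10^19) / t^15 := by
    have : 1001 * t^2 * (4 * (5/t)^17) = (4 * 1001 * 5^17) / t^15 := by field_simp
    rw [this]
    gcongr
    norm_num
  have f2 : 1001 * t^2 * (4 * (3/t)^17) ≤ (10^19) / t^15 := by
    have : 1001 * t^2 * (4 * (3/t)^17) = (4 * 1001 * 3^17) / t^15 := by field_simp
    rw [this]
    gcongr
    norm_num
  have f3 : 59584 * (4 * (8/t)^15) ≤ (10^19) / t^15 := by
    have : 59584 * (4 * ((8:ℝ)/t)^15) = (4 * 59584 * 8^15) / t^15 := by field_simp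
    rw [this]
    gcongr
    norm_num
  have f4 : 40425 * (4 * (5/t)^15) ≤ (10^19) / t^15 := by
    have : 40425 * (4 * ((5:ℝ)/t)^15) = (4 * 40425 * 5^15) / t^15 := by field_simp
    rw [this]
    gcongr
    norm_num
  have f5 : 1911 * (4 * (3/t)^15) ≤ (10^19) / t^15 := by
    have : 1911 * (4 * ((3:ℝ)/t)^15) = (4 * 1911 * 3^15) / t^15 := by field_simp
    rw [this]
    gcongr
    norm_num
  have f6 : 22880 * (4 * (7/t)^15) ≤ (10^19) / t^15 := by
    have : 22880 * (4 * ((7:ℝ)/t)^15) = (4 * 22880 * 7^15) / t^15 := by field_simp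
    rw [this]
    gcongr
    norm_num
  have hfin : 7 * (10^19 / t^15) ≤ 10^20 / t^15 := by
    have h8 : 7 * ((10:ℝ)^19 / t^15) = (7 * 10^19) / t^15 := by ring
    rw [h8]
    gcongr
    norm_num
  rw [F_eq t ht]
  rw [abs_le] at *
  constructor
  · linarith [e0.1, e1.1, e2.1, e3.1, e4.1, e5.1, e6.1]
  · linarith [e0.2, e1.2, e2.2, e3.2, e4.2, e5.2, e6.2]

theorem F_pos (t : ℝ) (ht : 10^6 ≤ t) : 0 < F t ∧ F t ≤ 10^13 / t^13 := by
  have ht0 : 0 < t := lt_of_lt_of_le (by norm_num) ht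
  have ht2 : (10:ℝ)^12 ≤ t^2 := by
    calc (10:ℝ)^12 = (10^6)^2 := by norm_num
      _ ≤ t^2 := by gcongr
  have h := F_est t ht
  have h2 : (10:ℝ)^20 / t^15 ≤ 10^8 / t^13 := by
    rw [div_le_div_iff₀ (by positivity) (by positivity)]
    have : (10:ℝ)^8 * t^15 = (10^8 * t^2) * t^13 := by ring
    rw [this]
    gcongr
    linarith
  rw [abs_le] at h
  constructor
  · have h3 : (10:ℝ)^8 / t^13 < 1021870080000 / t^13 := by
      gcongr
      norm_num
    linarith [h.1]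
  · have h3 : (1021870080000:ℝ) / t^13 + 10^8 / t^13 ≤ 10^13 / t^13 := by
      rw [← add_div]
      gcongr
      norm_num
    linarith [h.2]

end Pool.Agent.H17.LF
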